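import Mathlib
import Pool.Agent.Lib.MP_479d4c_gt.Wirt

/-!
# MP_479d4c_gt, short proof (see S/Paper.md): definitions and statements of the modules

`b = 1/2`, all series converge for `|w|, |v| < 6/5`.  A surface point is `w`, with `v = conj w`.
-/

set_option autoImplicit false

open ComplexConjugate Topology Metric
open scoped ContDiff Matrix

noncomputable section

namespace CMC82

open CMC46

/-! ## Double series -/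

/-- coefficients `f (m, n)` of a real double series `∑ f (m, n) w ^ m v ^ n` -/
abbrev Arr := ℕ × ℕ → ℝ

/-- the value of a double series -/
def ev2 (f : Arr) (w v : ℂ) : ℂ := ∑' i : ℕ × ℕ, (f i : ℂ) * w ^ i.1 * v ^ i.2

/-- the value of a series in one variable -/
def ev1 (k : ℕ → ℝ) (v : ℂ) : ℂ := ∑' j : ℕ, (k j : ℂ) * v ^ j

/-- formal derivatives -/
def dw (f : Arr) : Arr := fun i => ((i.1 : ℝ) + 1) * f (i.1 + 1, i.2)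
def dv (f : Arr) : Arr := fun i => ((i.2 : ℝ) + 1) * f (i.1, i.2 + 1)

/-- the swap of the two variables -/
def sw (f : Arr) : Arr := fun i => f (i.2, i.1)

/-- convergence in the open bidisc of radius `6/5` -/
def Cv (f : Arr) : Prop :=
  ∀ r : ℝ, 0 ≤ r → r < 6 / 5 → Summable fun i : ℕ × ℕ => r ^ (i.1 + i.2) * |f i|

/-- the weight -/
def wt (i : ℕ × ℕ) : ℝ := (1 + (i.1 : ℝ) + i.2) * (6 / 5 : ℝ) ^ (i.1 + i.2)

/-- finite weighted norm -/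
def Fn (f : Arr) : Prop := Summable fun i : ℕ × ℕ => wt i * |f i|

/-- `f` is `η`-near `g` in the weighted norm -/
def Near (η : ℝ) (f g : Arr) : Prop :=
  (Summable fun i : ℕ × ℕ => wt i * |f i - g i|) ∧ ∑' i : ℕ × ℕ, wt i * |f i - g i| ≤ η

/-- `w v` -/
def sg0 : Arr := fun i => if i = (1, 1) then 1 else 0

/-- `v (1 + w ^ 2 / 2)` -/
def be0 : Arr := fun i => if i = (0, 1) then 1 else if i = (2, 1) then 1 / 2 else 0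

/-- `(1 + w ^ 2 / 2) (1 + v ^ 2 / 2) - w v (w ^ 2 + v ^ 2) / 2` -/
def ga0 : Arr := fun i =>
  if i = (0, 0) then 1 else if i = (2, 0) then 1 / 2 else if i = (0, 2) then 1 / 2 else
  if i = (2, 2) then 1 / 4 else if i = (3, 1) then -1 / 2 else if i = (1, 3) then -1 / 2 else 0

/-- A solution of the Goursat problem with planar boundary.  In the notation of the paper
`p1 p2 y z`, `sg = p1 q1 + d p2 q2`, `be = q1 p2 - sg * (swap z)`, `ga = p2 q2 - sg * y`, where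
`q1 w v = p1 v w`, `q2 w v = p2 v w`. -/
structure Sol (d τ : ℝ) (k : ℕ → ℝ) (p1 p2 y z sg be ga : Arr) : Prop where
  d_pos : 0 < d
  c1 : Fn p1
  c2 : Fn p2
  cy : Fn y
  cz : Fn z
  cs : Fn sg
  cb : Fn be
  cg : Fn ga
  i1 : ∀ w : ℂ, ‖w‖ < 6 / 5 → ev2 p1 w 0 = w
  i2 : ∀ w : ℂ, ‖w‖ < 6 / 5 → ev2 p2 w 0 = 1 + τ * w + w ^ 2 / 2
  iy : y (0, 0) = 0
  iz : z (0, 0) = 0
  hs : ∀ w v : ℂ, ‖w‖ < 6 / 5 → ‖v‖ < 6 / 5 →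
    ev2 sg w v = ev2 p1 w v * ev2 p1 v w + d * (ev2 p2 w v * ev2 p2 v w)
  hb : ∀ w v : ℂ, ‖w‖ < 6 / 5 → ‖v‖ < 6 / 5 →
    ev2 be w v = ev2 p1 v w * ev2 p2 w v - ev2 sg w v * ev2 z v w
  hg : ∀ w v : ℂ, ‖w‖ < 6 / 5 → ‖v‖ < 6 / 5 →
    ev2 ga w v = ev2 p2 w v * ev2 p2 v w - ev2 sg w v * ev2 y w v
  e1 : ∀ w v : ℂ, ‖w‖ < 6 / 5 → ‖v‖ < 6 / 5 →
    ev2 (dv p1) w v = -(d * (ev2 sg w v * ev1 k v * ev2 p2 v w))
  e2 : ∀ w v : ℂ, ‖w‖ < 6 / 5 → ‖v‖ < 6 / 5 →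
    ev2 (dv p2) w v = ev2 sg w v * ev1 k v * ev2 p1 v w
  ey : ∀ w v : ℂ, ‖w‖ < 6 / 5 → ‖v‖ < 6 / 5 →
    ev2 (dw y) w v = ev1 k w * (ev2 p1 w v * ev2 p2 w v)
  ey0 : ∀ v : ℂ, ‖v‖ < 6 / 5 → ev2 (dv y) 0 v = ev1 k v * (ev2 p1 v 0 * ev2 p2 v 0)
  ez : ∀ w v : ℂ, ‖w‖ < 6 / 5 → ‖v‖ < 6 / 5 →
    ev2 (dw z) w v = ev1 k w * ev2 p1 w v ^ 2
  ez0 : ∀ v : ℂ, ‖v‖ < 6 / 5 → ev2 (dv z) 0 v = -(d * (ev1 k v * ev2 p2 v 0 ^ 2))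
  pl : ∀ w : ℂ, ‖w‖ = 1 →
    (w * (w ^ 2 / 2 - 1) * (ev2 p1 (conj w) w * ev2 p2 (conj w) w)).im = 0

/-- the part of `Sol` about the terms of low degree -/
structure Low (d : ℝ) (sg be ga : Arr) : Prop where
  l00 : sg (0, 0) = d * ga (0, 0)
  l10 : sg (1, 0) = d * ga (1, 0)
  l01 : sg (0, 1) = d * ga (0, 1)
  b00 : be (0, 0) = 0
  s00 : sg (0, 0) ≠ 0

/-- all arrays near the explicit ones -/
structure Nr (η : ℝ) (sg be ga : Arr) : Prop where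
  s : Near η sg sg0
  b : Near η be be0
  g : Near η ga ga0

/-! ## The surface -/

/-- the horizontal coordinate `Z`, `conj Z = √d be / sg` -/
def Zf (d : ℝ) (sg be : Arr) (w : ℂ) : ℂ :=
  (Real.sqrt d : ℂ) * conj (ev2 be w (conj w) / ev2 sg w (conj w))

/-- the height (a complex number with vanishing imaginary part) -/
def Hf (d : ℝ) (sg ga : Arr) (w : ℂ) : ℂ := d * (ev2 ga w (conj w) / ev2 sg w (conj w))

/-- the point of `ℝ³` with horizontal coordinate `Z` and height `H - c` -/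
def pt (Z H : ℂ → ℂ) (c : ℝ) (w : ℂ) : Fin 3 → ℝ := ![(Z w).re, (Z w).im, (H w).re - c]

/-! ## The final statement -/

/-- directional derivative (`v = 1` and `v = I` are the two coordinate directions) -/
def dir (X : ℂ → Fin 3 → ℝ) (v p : ℂ) : Fin 3 → ℝ := fderiv ℝ X p v

/-- the (not normalised) normal vector `X_u × X_v` -/
def nrm (X : ℂ → Fin 3 → ℝ) (p : ℂ) : Fin 3 → ℝ := dir X 1 p ⨯₃ dir X Complex.I p

/-- Mean curvature `(E N - 2 F M + G L) / (2 (E G - F²))`, with `E, F, G` the first and `L, M, N`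
the second fundamental form for the unit normal `nrm X / |nrm X|`. -/
def meanCurvature (X : ℂ → Fin 3 → ℝ) (p : ℂ) : ℝ :=
  let Xu := dir X 1 p
  let Xv := dir X Complex.I p
  let Xuu := dir (dir X 1) 1 p
  let Xuv := dir (dir X 1) Complex.I p
  let Xvv := dir (dir X Complex.I) Complex.I p
  let n := (Real.sqrt (nrm X p ⬝ᵥ nrm X p))⁻¹ • nrm X p
  ((Xu ⬝ᵥ Xu) * (Xvv ⬝ᵥ n) - 2 * (Xu ⬝ᵥ Xv) * (Xuv ⬝ᵥ n) + (Xv ⬝ᵥ Xv) * (Xuu ⬝ᵥ n)) /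
    (2 * ((Xu ⬝ᵥ Xu) * (Xv ⬝ᵥ Xv) - (Xu ⬝ᵥ Xv) ^ 2))

/-- the final statement -/
def MainS : Prop :=
  ∃ (X : ℂ → Fin 3 → ℝ) (U : Set ℂ) (H : ℝ) (D : Set (ℝ × ℝ)),
    IsOpen U ∧ closedBall 0 1 ⊆ U ∧ ContDiffOn ℝ ∞ X U ∧
    Set.InjOn X (closedBall 0 1) ∧
    (∀ p ∈ closedBall (0 : ℂ) 1, nrm X p ≠ 0) ∧
    H ≠ 0 ∧ (∀ p ∈ closedBall (0 : ℂ) 1, meanCurvature X p = H) ∧
    IsOpen D ∧ D.Nonempty ∧ Bornology.IsBounded D ∧ Convex ℝ D ∧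
    X '' sphere 0 1 = (fun q : ℝ × ℝ => ![q.1, q.2, 0]) '' frontier D ∧
    (∃ p ∈ closedBall (0 : ℂ) 1, 0 < X p 2) ∧ (∃ p ∈ closedBall (0 : ℂ) 1, X p 2 < 0)

/-! ## The modules -/

/-- (EXI) existence (Banach algebra `ALG`, inverse function theorem).  [uses nothing] -/
def ExiS : Prop := ∀ η : ℝ, 0 < η → ∃ d0 : ℝ, 0 < d0 ∧ ∀ d : ℝ, 0 < d → d < d0 →
  ∃ (τ : ℝ) (k : ℕ → ℝ) (p1 p2 y z sg be ga : Arr),
    Sol d τ k p1 p2 y z sg be ga ∧ Nr η sg be ga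

/-- (CLS) the classes of arrays.  [uses nothing] -/
def ClsS : Prop := (∀ f : Arr, Fn f → Cv f) ∧
  (∀ f : Arr, Cv f → Cv (dw f) ∧ Cv (dv f) ∧ Cv (sw f)) ∧
  (∀ f : Arr, dw (dv f) = dv (dw f)) ∧
  (∀ (f : Arr) (w v : ℂ), ev2 (sw f) w v = ev2 f v w) ∧
  (∀ (f : Arr) (w v : ℂ), conj (ev2 f w v) = ev2 f (conj w) (conj v)) ∧
  (∀ (k : ℕ → ℝ) (v : ℂ), conj (ev1 k v) = ev1 k (conj v)) ∧
  (∀ f : Arr, ev2 f 0 0 = f (0, 0))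

/-- (EVD) derivatives of `ev2`.  [uses ClsS] -/
def EvdS : Prop := ∀ f : Arr, Cv f →
  (∀ w v : ℂ, ‖w‖ < 6 / 5 → ‖v‖ < 6 / 5 →
    HasDerivAt (fun x => ev2 f x v) (ev2 (dw f) w v) w ∧
    HasDerivAt (fun x => ev2 f w x) (ev2 (dv f) w v) v) ∧
  (∀ w : ℂ, ‖w‖ < 6 / 5 →
    HasW (fun x => ev2 f x (conj x)) (ev2 (dw f) w (conj w)) (ev2 (dv f) w (conj w)) w ∧
    HasW (fun x => ev2 f (conj x) x) (ev2 (dv f) (conj w) w) (ev2 (dw f) (conj w) w) w)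

/-- (EVC) smoothness on the real slice.  [uses ClsS EvdS] -/
def EvcS : Prop := ∀ f : Arr, Cv f → ContDiffOn ℝ ∞ (fun x => ev2 f x (conj x)) (ball 0 (6 / 5))

/-- (AID) the function `a` is `w ^ 2 / 2 - 1`.  [uses ClsS EvdS] -/
def AidS : Prop := ∀ (d τ : ℝ) (k : ℕ → ℝ) (p1 p2 y z sg be ga : Arr),
  Sol d τ k p1 p2 y z sg be ga → ∀ w v : ℂ, ‖w‖ < 6 / 5 → ‖v‖ < 6 / 5 →
    ev2 p1 w v * ev2 (dw p2) w v - ev2 p2 w v * ev2 (dw p1) w v = w ^ 2 / 2 - 1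

/-- (CLO) closedness: the `v` derivatives of `y` and `z`, and `y` is symmetric.
[uses ClsS EvdS] -/
def CloS : Prop := ∀ (d τ : ℝ) (k : ℕ → ℝ) (p1 p2 y z sg be ga : Arr),
  Sol d τ k p1 p2 y z sg be ga → ∀ w v : ℂ, ‖w‖ < 6 / 5 → ‖v‖ < 6 / 5 →
    ev2 (dv y) w v = ev1 k v * (ev2 p1 v w * ev2 p2 v w) ∧
    ev2 (dv z) w v = -(d * (ev1 k v * ev2 p2 v w ^ 2)) ∧
    ev2 y v w = ev2 y w v

/-- (LOW) terms of low degree.  [uses ClsS EvdS] -/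
def LowS : Prop := ∀ (d τ : ℝ) (k : ℕ → ℝ) (p1 p2 y z sg be ga : Arr),
  Sol d τ k p1 p2 y z sg be ga → Low d sg be ga

/-- the Wirtinger derivatives of `Z` and of the height -/
def gA (d : ℝ) (p1 p2 sg : Arr) (w : ℂ) : ℂ :=
  -((Real.sqrt d : ℂ) * d * (w ^ 2 / 2 - 1) * ev2 p2 (conj w) w ^ 2 / ev2 sg w (conj w) ^ 2)
def gB (d : ℝ) (p1 p2 sg : Arr) (w : ℂ) : ℂ :=
  (Real.sqrt d : ℂ) * (conj w ^ 2 / 2 - 1) * ev2 p1 w (conj w) ^ 2 / ev2 sg w (conj w) ^ 2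
def gC (d : ℝ) (p1 p2 sg : Arr) (w : ℂ) : ℂ :=
  d * (w ^ 2 / 2 - 1) * (ev2 p1 (conj w) w * ev2 p2 (conj w) w) / ev2 sg w (conj w) ^ 2

/-- (POS) `sg` is real and positive on the real slice.  [uses ClsS AidS] -/
def PosS : Prop := ∀ (d τ : ℝ) (k : ℕ → ℝ) (p1 p2 y z sg be ga : Arr),
  Sol d τ k p1 p2 y z sg be ga → ∀ w : ℂ, ‖w‖ < 6 / 5 →
    ∃ s : ℝ, 0 < s ∧ ev2 sg w (conj w) = s ∧ s = ‖ev2 p1 w (conj w)‖ ^ 2 +
      d * ‖ev2 p2 w (conj w)‖ ^ 2 ∧ (Hf d sg ga w).im = 0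

/-- (GEO) the first derivatives.  [uses ClsS EvdS AidS CloS PosS] -/
def GeoS : Prop := ∀ (d τ : ℝ) (k : ℕ → ℝ) (p1 p2 y z sg be ga : Arr),
  Sol d τ k p1 p2 y z sg be ga → ∀ w : ℂ, ‖w‖ < 6 / 5 →
    HasW (Zf d sg be) (gA d p1 p2 sg w) (gB d p1 p2 sg w) w ∧
    HasW (Hf d sg ga) (gC d p1 p2 sg w) (conj (gC d p1 p2 sg w)) w

/-- (GEO2) the second derivatives, and the surface is conformal and immersed.
[uses ClsS EvdS AidS PosS] -/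
def Geo2S : Prop := ∀ (d τ : ℝ) (k : ℕ → ℝ) (p1 p2 y z sg be ga : Arr),
  Sol d τ k p1 p2 y z sg be ga → ∀ w : ℂ, ‖w‖ < 6 / 5 →
    ∀ A B C : ℂ, A = gA d p1 p2 sg w → B = gB d p1 p2 sg w → C = gC d p1 p2 sg w →
    (∃ x, HasW (gA d p1 p2 sg) x (2 * (conj C * A - C * B)) w) ∧
    (∃ x, HasW (gB d p1 p2 sg) (2 * (conj C * A - C * B)) x w) ∧
    (∃ x, HasW (gC d p1 p2 sg) x (B * conj B - A * conj A) w) ∧
    A * conj B + C ^ 2 = 0 ∧ (A ≠ 0 ∨ B ≠ 0)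

/-- (MEAN) mean curvature `-2` from `X_(w conj w) = - X_u × X_v`.  [uses nothing] -/
def MeanS : Prop := ∀ (Z H A B C : ℂ → ℂ) (U : Set ℂ) (c : ℝ), IsOpen U →
  (∀ w ∈ U, HasW Z (A w) (B w) w) → (∀ w ∈ U, HasW H (C w) (conj (C w)) w) →
  (∀ w ∈ U, (∃ x, HasW A x (2 * (conj (C w) * A w - C w * B w)) w) ∧
    (∃ x, HasW B (2 * (conj (C w) * A w - C w * B w)) x w) ∧
    (∃ x, HasW C x (B w * conj (B w) - A w * conj (A w)) w) ∧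
    A w * conj (B w) + C w ^ 2 = 0 ∧ (A w ≠ 0 ∨ B w ≠ 0)) →
  ∀ p ∈ U, nrm (pt Z H c) p ≠ 0 ∧ meanCurvature (pt Z H c) p = -2

/-- (SMO) smoothness of the surface.  [uses ClsS EvcS PosS] -/
def SmoS : Prop := ∀ (d τ : ℝ) (k : ℕ → ℝ) (p1 p2 y z sg be ga : Arr),
  Sol d τ k p1 p2 y z sg be ga → ∀ c : ℝ,
    ContDiffOn ℝ ∞ (pt (Zf d sg be) (Hf d sg ga) c) (ball 0 (6 / 5))

/-- (PLA) the boundary curve is planar.  [uses ClsS GeoS PosS] -/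
def PlaS : Prop := ∀ (d τ : ℝ) (k : ℕ → ℝ) (p1 p2 y z sg be ga : Arr),
  Sol d τ k p1 p2 y z sg be ga → ∀ w : ℂ, ‖w‖ = 1 → (Hf d sg ga w).re = (Hf d sg ga 1).re

/-- (BCV) the boundary curve is near the ellipse.  [uses nothing] -/
def BcvS : Prop := ∀ ε : ℝ, 0 < ε → ∃ η : ℝ, 0 < η ∧ ∀ sg be : Arr, Near η sg sg0 →
  Near η be be0 → ∃ g g1 g2 : ℝ → ℂ, ∀ t : ℝ,
    g t = conj (ev2 be (Complex.exp (t * Complex.I)) (conj (Complex.exp (t * Complex.I))) /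
      ev2 sg (Complex.exp (t * Complex.I)) (conj (Complex.exp (t * Complex.I)))) ∧
    HasDerivAt g (g1 t) t ∧ HasDerivAt g1 (g2 t) t ∧
    ‖g t - (Complex.exp (t * Complex.I) + Complex.exp (-(t * Complex.I)) / 2)‖ ≤ ε ∧
    ‖g1 t - Complex.I * (Complex.exp (t * Complex.I) - Complex.exp (-(t * Complex.I)) / 2)‖ ≤ ε ∧
    ‖g2 t + (Complex.exp (t * Complex.I) + Complex.exp (-(t * Complex.I)) / 2)‖ ≤ ε

/-- (CVX) a `2 π`-periodic curve `C²`-near the ellipse bounds a convex domain (scaled by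
`r > 0`).  [uses nothing] -/
def CvxS : Prop := ∃ ε : ℝ, 0 < ε ∧ ∀ (g g1 g2 : ℝ → ℂ),
  (∀ t : ℝ, g (t + 2 * Real.pi) = g t ∧ HasDerivAt g (g1 t) t ∧ HasDerivAt g1 (g2 t) t ∧
    ‖g t - (Complex.exp (t * Complex.I) + Complex.exp (-(t * Complex.I)) / 2)‖ ≤ ε ∧
    ‖g1 t - Complex.I * (Complex.exp (t * Complex.I) - Complex.exp (-(t * Complex.I)) / 2)‖ ≤ ε ∧
    ‖g2 t + (Complex.exp (t * Complex.I) + Complex.exp (-(t * Complex.I)) / 2)‖ ≤ ε) →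
  ∀ r : ℝ, 0 < r → ∃ D : Set (ℝ × ℝ), IsOpen D ∧ D.Nonempty ∧ Bornology.IsBounded D ∧
    Convex ℝ D ∧ Set.range (fun t : ℝ => ((r * (g t).re, r * (g t).im) : ℝ × ℝ)) = frontier D

/-- (INJ) embeddedness.  [uses nothing] -/
def InjS : Prop := ∃ η : ℝ, 0 < η ∧ ∀ (d : ℝ) (sg be ga : Arr), 0 < d → d ≤ η →
  Nr η sg be ga → Low d sg be ga → (∀ w : ℂ, ‖w‖ ≤ 1 → ev2 sg w (conj w) ≠ 0) →
  ∀ w1 w2 : ℂ, ‖w1‖ ≤ 1 → ‖w2‖ ≤ 1 →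
    ev2 be w1 (conj w1) / ev2 sg w1 (conj w1) = ev2 be w2 (conj w2) / ev2 sg w2 (conj w2) →
    ev2 ga w1 (conj w1) / ev2 sg w1 (conj w1) = ev2 ga w2 (conj w2) / ev2 sg w2 (conj w2) →
      w1 = w2

/-- (SID) points on both sides.  [uses nothing] -/
def SidS : Prop := ∃ η : ℝ, 0 < η ∧ ∀ (d : ℝ) (sg be ga : Arr), 0 < d → d ≤ η →
  Nr η sg be ga → Low d sg be ga →
    (∃ w : ℂ, ‖w‖ ≤ 1 ∧ (Hf d sg ga w).re < (Hf d sg ga 1).re) ∧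
    (∃ w : ℂ, ‖w‖ ≤ 1 ∧ (Hf d sg ga 1).re < (Hf d sg ga w).re)

/-- (FIN) assembly. -/
def FinS : Prop := ExiS → ClsS → EvdS → EvcS → AidS → CloS → LowS → PosS → GeoS → Geo2S → MeanS →
  SmoS → PlaS → BcvS → CvxS → InjS → SidS → MainS

end CMC82
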